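import Mathlib

/-!
# Artin `L`-functions over `ℚ`: definitions
-/

set_option autoImplicit false

open Complex NumberField

namespace Pool.Agent.H27.L1.H25.DL

/-- A finite Galois extension `K/ℚ`, a complex representation `rho` of its Galois group, and for
every prime number `p` a prime ideal `P p` of `𝓞 K` above `p` and a Frobenius element `Fr p` of
`P p`. -/
structure ArtinRep where
  K : Type
  fK : Field K
  nK : NumberField K
  gK : IsGalois ℚ K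
  V : Type
  aV : AddCommGroup V
  mV : Module ℂ V
  dV : FiniteDimensional ℂ V
  rho : Representation ℂ (K ≃ₐ[ℚ] K) V
  P : Nat.Primes → Ideal (𝓞 K)
  P_prime : ∀ p, (P p).IsPrime
  P_mem : ∀ p : Nat.Primes, ((p : ℕ) : 𝓞 K) ∈ P p
  Fr : Nat.Primes → (K ≃ₐ[ℚ] K)
  Fr_spec : ∀ (p : Nat.Primes) (x : 𝓞 K), Fr p • x - x ^ (p : ℕ) ∈ P p

attribute [instance] ArtinRep.fK ArtinRep.nK ArtinRep.gK ArtinRep.aV ArtinRep.mV ArtinRep.dV

/-- the dimension of the representation -/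
noncomputable def ArtinRep.dim (R : ArtinRep) : ℕ := Module.finrank ℂ R.V

/-- The inertia group of `P p`. -/
noncomputable def ArtinRep.In (R : ArtinRep) (p : Nat.Primes) : Subgroup (R.K ≃ₐ[ℚ] R.K) :=
  (R.P p).inertia (R.K ≃ₐ[ℚ] R.K)

/-- The average of `rho` over a subgroup `H`: the projection of `V` onto the `H`-invariants. -/
noncomputable def ArtinRep.avg (R : ArtinRep) (H : Subgroup (R.K ≃ₐ[ℚ] R.K)) : Module.End ℂ R.V :=
  (Nat.card H : ℂ)⁻¹ • ∑ᶠ g : H, R.rho (g : R.K ≃ₐ[ℚ] R.K)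

/-- The endomorphism of `V` which is `rho (Fr p)` on the invariants of the inertia group and `0` on
the complement `ker avg`. -/
noncomputable def ArtinRep.fr (R : ArtinRep) (p : Nat.Primes) : Module.End ℂ R.V :=
  R.rho (R.Fr p) * R.avg (R.In p)

/-- The Euler factor `det (1 - p^{-s} Fr p | V^{I_p})^{-1}` of the Artin `L`-function. -/
noncomputable def ArtinRep.euler (R : ArtinRep) (p : Nat.Primes) (s : ℂ) : ℂ :=
  (LinearMap.det (1 - ((p : ℕ) : ℂ) ^ (-s) • R.fr p))⁻¹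

/-- The Artin `L`-function of `R` with the classical facts on it: it is given by its Euler product
for `Re s > 1`; it is the quotient `E₁ / E₂` of two entire functions of polynomial growth in
vertical strips (products of Hecke `L`-functions, by Brauer's theorem, times powers of `s - 1`),
where `E₂` has no zeros with `Re s > 1`, `Im s ≠ 0` and is bounded away from `0` for `Re s ≥ 2`,
`|Im s| ≥ 1`; and the completed function `cond^{s/2} Γ_ℝ(s)^a Γ_ℝ(s+1)^b L(s)` at `s` is `W` times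
its complex conjugate at `1 - conj s`. -/
structure ArtinL (R : ArtinRep) where
  L : ℂ → ℂ
  E₁ : ℂ → ℂ
  E₂ : ℂ → ℂ
  diff₁ : Differentiable ℂ E₁
  diff₂ : Differentiable ℂ E₂
  quot : ∀ s : ℂ, E₂ s ≠ 0 → L s = E₁ s / E₂ s
  growth : ∀ b : ℝ, ∃ C : ℝ, 0 < C ∧ ∀ s : ℂ, |s.re| ≤ b → 1 ≤ |s.im| →
    ‖E₁ s‖ ≤ C * |s.im| ^ C ∧ ‖E₂ s‖ ≤ C * |s.im| ^ C
  E₂_ne : ∀ s : ℂ, 1 < s.re → s.im ≠ 0 → E₂ s ≠ 0
  E₂_ge : ∃ c : ℝ, 0 < c ∧ ∀ s : ℂ, 2 ≤ s.re → 1 ≤ |s.im| → c ≤ ‖E₂ s‖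
  euler : ∀ s : ℂ, 1 < s.re → HasProd (fun p => R.euler p s) (L s)
  cond : ℝ
  cond_pos : 0 < cond
  a : ℕ
  b : ℕ
  a_add_b : a + b = R.dim
  W : ℂ
  norm_W : ‖W‖ = 1
  functional : ∀ s : ℂ, s.im ≠ 0 → E₂ s ≠ 0 → E₂ (1 - (starRingEnd ℂ) s) ≠ 0 →
    (cond : ℂ) ^ (s / 2) * Gammaℝ s ^ a * Gammaℝ (s + 1) ^ b * L s =
      W * (starRingEnd ℂ) ((cond : ℂ) ^ ((1 - (starRingEnd ℂ) s) / 2) *
        Gammaℝ (1 - (starRingEnd ℂ) s) ^ a * Gammaℝ (1 - (starRingEnd ℂ) s + 1) ^ b *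
          L (1 - (starRingEnd ℂ) s))

end Pool.Agent.H27.L1.H25.DL
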