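import Mathlib

/-!
# Dilated zeros of `L`-functions: definitions
-/

set_option autoImplicit false

open Complex MeasureTheory Set

namespace Pool.Agent.H27.L1.H25.DL

/-! ### Dirichlet series with a dilation and a shift -/

/-- `1/2 + r (s - 1/2) + i τ` -/
noncomputable def wl (r τ : ℝ) (s : ℂ) : ℂ := 1 / 2 + r * (s - 1 / 2) + τ * I

/-- A Dirichlet series with coefficients bounded by `1`, together with a dilation `r` and a
shift `τ`. -/
structure Fac where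
  c : ℕ → ℂ
  r : ℝ
  τ : ℝ
  c_zero : c 0 = 0
  c_one : c 1 = 1
  c_le : ∀ n, ‖c n‖ ≤ 1
  r_pos : 0 < r

/-- the series `∑ c(n) n^{-(1/2 + r (s - 1/2) + i τ)}` -/
noncomputable def Fac.D (f : Fac) (s : ℂ) : ℂ := ∑' n : ℕ, f.c n * (n : ℂ) ^ (-(wl f.r f.τ s))

/-- the dyadic block `2^j ≤ n < 2^{j+1}` of the series -/
noncomputable def Fac.B (f : Fac) (j : ℕ) (s : ℂ) : ℂ :=
  ∑ n ∈ Finset.Ico (2 ^ j) (2 ^ (j + 1)), f.c n * (n : ℂ) ^ (-(wl f.r f.τ s))

/-- the complex conjugate factor -/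
noncomputable def Fac.bar (f : Fac) : Fac where
  c n := (starRingEnd ℂ) (f.c n)
  r := f.r
  τ := -f.τ
  c_zero := by simp [f.c_zero]
  c_one := by simp [f.c_one]
  c_le n := by simpa using f.c_le n
  r_pos := f.r_pos

variable {ι : Type} [Fintype ι]

/-- the product of all series -/
noncomputable def Pr (f : ι → Fac) (s : ℂ) : ℂ := ∏ l, (f l).D s

/-- a product of dyadic blocks -/
noncomputable def Pj (f : ι → Fac) (j : ι → ℕ) (s : ℂ) : ℂ := ∏ l, (f l).B (j l) s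

/-- the Gaussian `exp ((z/β)²) / (β √π)` -/
noncomputable def gs (β : ℝ) (z : ℂ) : ℂ := cexp ((z / β) ^ 2) / (β * Real.sqrt Real.pi)

/-- The properties of the inverse `Y` of the factor of the functional equation. -/
structure Phase (Y : ℂ → ℂ) (d t₀ : ℝ) : Prop where
  one_le : 1 ≤ t₀
  diff : ∀ s : ℂ, t₀ ≤ s.im → DifferentiableAt ℂ Y s
  main : ∃ (κ : ℂ) (B η C : ℝ), ‖κ‖ = 1 ∧ ∀ t : ℝ, t₀ ≤ t →
    ‖Y (1 / 2 + t * I) - κ * cexp ((d * t * Real.log t + B * t + η * Real.log t : ℝ) * I)‖ ≤ C / t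
  growth : ∀ b : ℝ, ∃ C : ℝ, 0 < C ∧ ∀ σ t : ℝ, 1 / 2 ≤ σ → σ ≤ b → t₀ ≤ t →
    ‖Y (σ + t * I)‖ ≤ C * t ^ (d * (σ - 1 / 2))

/-- the local average on the line `Re s = 1/2 + β` -/
noncomputable def KK (f : ι → Fac) (Y : ℂ → ℂ) (β R u : ℝ) : ℂ :=
  ∫ y in (-R)..R, Pr f (1 / 2 + β + (u + y : ℝ) * I) * Y (1 / 2 + β + (u + y : ℝ) * I) *
    gs β (β + y * I)

/-- the local average of one product of blocks on the line `Re s = 1/2` -/
noncomputable def KJ (f : ι → Fac) (Y : ℂ → ℂ) (β R : ℝ) (j : ι → ℕ) (u : ℝ) : ℂ :=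
  ∫ y in (-R)..R, Pj f j (1 / 2 + (u + y : ℝ) * I) * Y (1 / 2 + (u + y : ℝ) * I) * gs β (y * I)

/-- the local average on the line `Re s = 1/2 - β` (after the functional equation) -/
noncomputable def LL (f : ι → Fac) (β R u : ℝ) : ℂ :=
  ∫ y in (-R)..R, Pr (fun l => (f l).bar) (1 / 2 + β - (u + y : ℝ) * I) * gs β (-β + y * I)

/-- the tuples of blocks with `∏ (2^{j_l})^{r_l} ≤ T^D` (when `μ ≤ r_l` for all `l`) -/
noncomputable def mains (f : ι → Fac) (μ D T : ℝ) : Finset (ι → ℕ) :=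
  letI := Classical.decEq ι
  (Fintype.piFinset fun _ : ι => Finset.range (⌊D * Real.log T / (μ * Real.log 2)⌋₊ + 1)).filter
    fun j => ∑ l, (j l : ℝ) * (f l).r * Real.log 2 ≤ D * Real.log T

/-- the rectangle `|Re s - 1/2| ≤ β`, `|Im s - u| ≤ R` -/
def box (β R u : ℝ) : Set ℂ := {s | |s.re - 1 / 2| ≤ β ∧ |s.im - u| ≤ R}

/-- a clean height `u` -/
def Clean (f : ι → Fac) (Y : ℂ → ℂ) (β C T u : ℝ) : Prop :=
  ∃ H : ℂ → ℂ, (∀ s ∈ box β (Real.log T) u, DifferentiableAt ℂ H s ∧ ‖H s‖ ≤ T ^ C) ∧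
    (∀ t : ℝ, |t - u| ≤ Real.log T →
      H (1 / 2 + β + t * I) = Pr f (1 / 2 + β + t * I) * Y (1 / 2 + β + t * I)) ∧
    ∀ t : ℝ, |t - u| ≤ Real.log T →
      H (1 / 2 - β + t * I) = Pr (fun l => (f l).bar) (1 / 2 + β - t * I)

/-! ### `L`-functions -/

/-- An `L`-function of degree `n`, given as a quotient `num / den` on the upper half plane (for
entire `L`-functions `den = 1`). Its Euler product is `∏_j ∑_m h_j(m) m^{-s}` with completely
multiplicative `h_j`, its Gamma factor is `∏_j Γ_ℝ(s + κ_j)` with `κ_j ∈ {0, 1}`, the conductor is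
`A` and the functional equation relates `L(s)` and `conj L(1 - conj s)`. -/
structure LF where
  n : ℕ
  h : Fin n → ℕ → ℂ
  h_zero : ∀ j, h j 0 = 0
  h_one : ∀ j, h j 1 = 1
  h_mul : ∀ j a b, h j (a * b) = h j a * h j b
  h_le : ∀ j a, ‖h j a‖ ≤ 1
  κ : Fin n → ℝ
  κ_mem : ∀ j, κ j = 0 ∨ κ j = 1
  A : ℝ
  A_pos : 0 < A
  ε : ℂ
  norm_ε : ‖ε‖ = 1
  num : ℂ → ℂ
  den : ℂ → ℂ
  diff : ∀ s : ℂ, 0 < s.im → DifferentiableAt ℂ num s ∧ DifferentiableAt ℂ den s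
  growth : ∀ b : ℝ, ∃ C : ℝ, 0 < C ∧ ∀ s : ℂ, |s.re| ≤ b → 1 ≤ s.im →
    ‖num s‖ ≤ C * s.im ^ C ∧ ‖den s‖ ≤ C * s.im ^ C
  den_ne : ∀ s : ℂ, 1 < s.re → 0 < s.im → den s ≠ 0
  den_ge : ∃ c : ℝ, 0 < c ∧ ∀ s : ℂ, 2 ≤ s.re → 1 ≤ s.im → c ≤ ‖den s‖
  series : ∀ s : ℂ, 1 < s.re → 0 < s.im →
    num s = den s * ∏ j, ∑' m : ℕ, h j m * (m : ℂ) ^ (-s)
  fe : ∀ s : ℂ, 0 < s.im →
    num s * (ε * cexp ((s - 1 / 2) * Real.log A) *
        ∏ j, Gammaℂ s * Complex.cos (Real.pi * (s - κ j) / 2)) *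
      (starRingEnd ℂ) (den (1 - (starRingEnd ℂ) s)) =
    (starRingEnd ℂ) (num (1 - (starRingEnd ℂ) s)) * den s

/-- the inverse factor of the functional equation -/
noncomputable def LF.y (L : LF) (s : ℂ) : ℂ :=
  L.ε * cexp ((s - 1 / 2) * Real.log L.A) *
    ∏ j, Gammaℂ s * Complex.cos (Real.pi * (s - L.κ j) / 2)

/-- an `L`-function with a dilation and a shift -/
structure DLF where
  L : LF
  r : ℝ
  τ : ℝ
  r_pos : 0 < r

/-- two finite families of `L`-functions with dilations and shifts -/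
structure Fam where
  I : Type
  J : Type
  fI : Fintype I
  fJ : Fintype J
  p : I → DLF
  q : J → DLF

attribute [instance] Fam.fI Fam.fJ

/-- the numerator, a product over the first family -/
noncomputable def Fam.N (F : Fam) (s : ℂ) : ℂ :=
  (∏ i, (F.p i).L.num (wl (F.p i).r (F.p i).τ s)) * ∏ j, (F.q j).L.den (wl (F.q j).r (F.q j).τ s)

/-- the denominator, a product over the second family -/
noncomputable def Fam.M (F : Fam) (s : ℂ) : ℂ :=
  (∏ i, (F.p i).L.den (wl (F.p i).r (F.p i).τ s)) * ∏ j, (F.q j).L.num (wl (F.q j).r (F.q j).τ s)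

/-- `∏ y / ∏ y` -/
noncomputable def Fam.Y (F : Fam) (s : ℂ) : ℂ :=
  (∏ i, (F.p i).L.y (wl (F.p i).r (F.p i).τ s)) / ∏ j, (F.q j).L.y (wl (F.q j).r (F.q j).τ s)

/-- the degree of the quotient -/
noncomputable def Fam.d (F : Fam) : ℝ :=
  ∑ i, (F.p i).r * (F.p i).L.n - ∑ j, (F.q j).r * (F.q j).L.n

/-- the index type of all factors -/
abbrev Fam.Ix (F : Fam) : Type := (Σ i : F.I, Fin (F.p i).L.n) ⊕ (Σ j : F.J, Fin (F.q j).L.n)

/-- one factor `∑ h(m) m^{-w}` of the numerator -/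
noncomputable def facP (a : DLF) (k : Fin a.L.n) : Fac where
  c := a.L.h k
  r := a.r
  τ := a.τ
  c_zero := a.L.h_zero k
  c_one := a.L.h_one k
  c_le := a.L.h_le k
  r_pos := a.r_pos

lemma moebius_norm_le (m : ℕ) : ‖((ArithmeticFunction.moebius m : ℤ) : ℂ)‖ ≤ 1 := by
  rw [Complex.norm_intCast]
  exact_mod_cast ArithmeticFunction.abs_moebius_le_one

/-- one factor `∑ μ(m) h(m) m^{-w}` of the denominator -/
noncomputable def facQ (a : DLF) (k : Fin a.L.n) : Fac where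
  c m := ((ArithmeticFunction.moebius m : ℤ) : ℂ) * a.L.h k m
  r := a.r
  τ := a.τ
  c_zero := by simp
  c_one := by simp [a.L.h_one k]
  c_le m := by
    rw [norm_mul]
    have h1 := moebius_norm_le m
    have h2 := a.L.h_le k m
    have h3 := norm_nonneg (a.L.h k m)
    nlinarith [norm_nonneg ((ArithmeticFunction.moebius m : ℤ) : ℂ)]
  r_pos := a.r_pos

/-- all factors of the quotient -/
noncomputable def Fam.f (F : Fam) : F.Ix → Fac
  | Sum.inl x => facP (F.p x.1) x.2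
  | Sum.inr x => facQ (F.q x.1) x.2

/-- exceptional points: the quotient has a pole -/
def Fam.Exc (F : Fam) (z : ℂ) : Prop := analyticOrderAt F.N z < analyticOrderAt F.M z

end Pool.Agent.H27.L1.H25.DL
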