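import Pool.Agent.H27.L1.H25.DL.Targets
import Pool.Agent.H27.L1.H25.DL.Artin
import Pool.Agent.H27.L1.H23.GLH.Defs

/-!
# Dilated zeros of `L`-functions: Dirichlet and Artin `L`-functions (targets)
-/

set_option autoImplicit false

open Complex MeasureTheory Set

namespace Pool.Agent.H27.L1.H25.DL

open Pool.Agent.H27.L1.H23.GLH

/-! ### Part C: Dirichlet `L`-functions -/

/-- (DI) primitive Dirichlet characters. -/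
def T_DI : Prop := ∀ π : PrimChar, ∃ L : LF, L.n = 1 ∧ L.num = π.L ∧ L.den = fun _ => 1

/-- (RE) the theorem for Dirichlet `L`-functions. -/
def T_RE : Prop :=
  ∀ (k m : ℕ) (ψ : Fin k → PrimChar) (r τ : Fin k → ℝ) (χ : Fin m → PrimChar)
    (ρ σ : Fin m → ℝ) (μ : ℝ), 0 < μ → (∀ i, μ ≤ r i) → (∀ j, μ ≤ ρ j) →
    0 < ∑ i, r i - ∑ j, ρ j → ∑ i, r i - ∑ j, ρ j < μ →
    ∃ A T₀ : ℝ, 0 < A ∧ ∀ T : ℝ, T₀ ≤ T → ∃ Z : Finset ℂ, T / Real.log T ^ A ≤ Z.card ∧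
      ∀ z ∈ Z, T / 4 ≤ z.im ∧ z.im ≤ T ∧
        ∑ i, analyticOrderAt (ψ i).L (wl (r i) (τ i) z) <
          ∑ j, analyticOrderAt (χ j).L (wl (ρ j) (σ j) z)

/-! ### Part D: Artin `L`-functions -/

/-- (AL) characteristic polynomials of Frobenius elements on invariants. -/
def T_AL : Prop :=
  ∀ (R : ArtinRep) (p : Nat.Primes), ∃ α : Fin R.dim → ℂ, (∀ j, ‖α j‖ ≤ 1) ∧
    ∀ X : ℂ, LinearMap.det (1 - X • R.fr p) = ∏ j, (1 - α j * X)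

/-- (AH) completely multiplicative functions with given values at primes. -/
def T_AH : Prop :=
  ∀ α : Nat.Primes → ℂ, (∀ p, ‖α p‖ ≤ 1) → ∃ h : ℕ → ℂ, h 0 = 0 ∧ h 1 = 1 ∧
    (∀ a b, h (a * b) = h a * h b) ∧ (∀ a, ‖h a‖ ≤ 1) ∧ ∀ s : ℂ, 1 < s.re →
      HasProd (fun p : Nat.Primes => (1 - α p * ((p : ℕ) : ℂ) ^ (-s))⁻¹)
        (∑' m : ℕ, h m * (m : ℂ) ^ (-s))

/-- (AF) an Artin `L`-function as an `LF`. -/
def T_AF : Prop :=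
  ∀ (R : ArtinRep) (Λ : ArtinL R), ∃ L : LF, L.n = R.dim ∧ L.num = Λ.E₁ ∧ L.den = Λ.E₂

/-- (AR) the theorem for Artin `L`-functions. -/
def T_AR : Prop :=
  ∀ (k m : ℕ) (R : Fin k → ArtinRep) (Λ : ∀ i, ArtinL (R i)) (r τ : Fin k → ℝ)
    (S : Fin m → ArtinRep) (M : ∀ j, ArtinL (S j)) (ρ σ : Fin m → ℝ) (μ : ℝ), 0 < μ →
    (∀ i, μ ≤ r i) → (∀ j, μ ≤ ρ j) →
    0 < ∑ i, r i * (R i).dim - ∑ j, ρ j * (S j).dim →
    ∑ i, r i * (R i).dim - ∑ j, ρ j * (S j).dim < μ →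
    ∃ A T₀ : ℝ, 0 < A ∧ ∀ T : ℝ, T₀ ≤ T → ∃ Z : Finset ℂ, T / Real.log T ^ A ≤ Z.card ∧
      ∀ z ∈ Z, T / 4 ≤ z.im ∧ z.im ≤ T ∧
        ∑ i, meromorphicOrderAt (Λ i).L (wl (r i) (τ i) z) <
          ∑ j, meromorphicOrderAt (M j).L (wl (ρ j) (σ j) z)

end Pool.Agent.H27.L1.H25.DL
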